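import Pool.Agent.H58.BL.Stm

/-!
# DEC: orthogonal decomposition in minimal invariant subspaces, with coordinates
-/

set_option autoImplicit false

open Finset Module

namespace Pool.Agent.H695.BL

open Pool.Agent.H58 Pool.Agent.H58.AG Pool.Agent.H58.BL

variable {E : Type*} [NormedAddCommGroup E] [InnerProductSpace ℝ E] [FiniteDimensional ℝ E]

/-- the orthogonal projection to an invariant subspace commutes with the group -/
lemma proj_comm {G : Subgroup (E ≃ₗᵢ[ℝ] E)} {W : Submodule ℝ E} (hW : Inv G W) (g : E ≃ₗᵢ[ℝ] E)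
    (hg : g ∈ G) (x : E) :
    (W.orthogonalProjectionOnto (g x) : E) = g (W.orthogonalProjectionOnto x) := by
  have hsub : x - (W.orthogonalProjectionOnto x : E) ∈ Wᗮ := by
    rw [← Submodule.starProjection_apply]
    exact Submodule.sub_starProjection_mem_orthogonal x
  have h6 := Submodule.eq_starProjection_of_mem_orthogonal (K := W) (u := g x)
    (v := g (W.orthogonalProjectionOnto x)) (hW g hg _ (W.orthogonalProjectionOnto x).2) (by
      rw [← map_sub]
      exact inv_orthogonal hW g hg _ hsub)
  rw [← h6, Submodule.starProjection_apply]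

/-- the decomposition -/
theorem exists_dec (G : Subgroup (E ≃ₗᵢ[ℝ] E)) (d : ℕ) :
    ∀ V : Submodule ℝ E, Inv G V → finrank ℝ V = d →
      ∃ (m : ℕ) (W : Fin m → Submodule ℝ E), (∀ j, IsMin G (W j)) ∧ (∀ j, W j ≤ V) ∧
        ∑ j, finrank ℝ (W j) = d ∧
        ∀ x ∈ V, ∑ j, ‖((W j).orthogonalProjectionOnto x : E)‖ ^ 2 = ‖x‖ ^ 2 := by
  induction d using Nat.strong_induction_on with
  | _ d ih =>
    intro V hV hd
    by_cases hV0 : V = ⊥
    · subst hV0
      refine ⟨0, fun _ => ⊥, fun j => j.elim0, fun j => j.elim0, ?_, ?_⟩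
      · rw [← hd, finrank_bot]
        simp
      · intro x hx
        rw [Submodule.mem_bot] at hx
        simp [hx]
    · obtain ⟨U, hUV, hU⟩ := exists_min hV hV0
      have hpos : 0 < finrank ℝ U := by
        rw [Nat.pos_iff_ne_zero, Ne, Submodule.finrank_eq_zero]
        exact hU.2.1
      have hfr : finrank ℝ (Uᗮ ⊓ V : Submodule ℝ E) + finrank ℝ U = finrank ℝ V := by
        have := Submodule.finrank_add_inf_finrank_orthogonal hUV
        omega
      obtain ⟨m, W, hW1, hW2, hW3, hW4⟩ := ih (d - finrank ℝ U) (by omega) (Uᗮ ⊓ V)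
        (inv_inf (inv_orthogonal hU.1) hV) (by omega)
      refine ⟨m + 1, Fin.cons U W, ?_, ?_, ?_, ?_⟩
      · intro j
        refine Fin.cases ?_ ?_ j
        · exact hU
        · exact hW1
      · intro j
        refine Fin.cases ?_ ?_ j
        · exact hUV
        · exact fun i => (hW2 i).trans inf_le_right
      · rw [Fin.sum_univ_succ]
        show finrank ℝ U + ∑ j, finrank ℝ (W j) = d
        rw [hW3]
        have : finrank ℝ U ≤ d := by omega
        omega
      · intro x hx
        rw [Fin.sum_univ_succ]
        show ‖(U.orthogonalProjectionOnto x : E)‖ ^ 2 +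
          ∑ j, ‖((W j).orthogonalProjectionOnto x : E)‖ ^ 2 = ‖x‖ ^ 2
        have hsub : x - (U.orthogonalProjectionOnto x : E) ∈ Uᗮ := by
          rw [← Submodule.starProjection_apply]
          exact Submodule.sub_starProjection_mem_orthogonal x
        have h1 := hW4 (x - (U.orthogonalProjectionOnto x : E))
          ⟨hsub, V.sub_mem hx (hUV (U.orthogonalProjectionOnto x).2)⟩
        have h2 : ∀ j, (W j).orthogonalProjectionOnto (x - (U.orthogonalProjectionOnto x : E)) =
            (W j).orthogonalProjectionOnto x := by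
          intro j
          rw [map_sub]
          have h3 : (W j).orthogonalProjectionOnto (U.orthogonalProjectionOnto x : E) = 0 := by
            apply Submodule.orthogonalProjectionOnto_apply_of_mem_orthogonal
            rw [Submodule.mem_orthogonal]
            intro y hy
            exact Submodule.inner_left_of_mem_orthogonal (U.orthogonalProjectionOnto x).2
              ((hW2 j hy).1)
          rw [h3, sub_zero]
        simp only [h2] at h1
        rw [h1]
        have h3 : inner ℝ (U.orthogonalProjectionOnto x : E)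
            (x - (U.orthogonalProjectionOnto x : E)) = 0 :=
          Submodule.inner_right_of_mem_orthogonal (U.orthogonalProjectionOnto x).2 hsub
        have h4 := norm_add_sq_real (U.orthogonalProjectionOnto x : E)
          (x - (U.orthogonalProjectionOnto x : E))
        rw [h3, add_sub_cancel] at h4
        linarith

/-- coordinates of the orthogonal projection -/
noncomputable def crd (W : Submodule ℝ E) : E →ₗ[ℝ] (Fin (finrank ℝ W) → ℝ) :=
  LinearMap.pi fun i => (innerSL ℝ (stdOrthonormalBasis ℝ W i)).toLinearMap ∘ₗ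
    W.orthogonalProjectionOnto.toLinearMap

lemma crd_dt (W : Submodule ℝ E) (x : E) :
    dt (crd W x) (crd W x) = ‖(W.orthogonalProjectionOnto x : E)‖ ^ 2 := by
  have h := (stdOrthonormalBasis ℝ W).sum_sq_norm_inner_right (W.orthogonalProjectionOnto x)
  rw [Submodule.coe_norm] at h
  rw [← h]
  unfold dt
  refine Finset.sum_congr rfl fun i _ => ?_
  rw [Real.norm_eq_abs, sq_abs, sq]
  rfl

theorem t_dec : Pool.Agent.H58.BL.S_DEC := by
  intro n D G hD
  obtain ⟨m, W, h1, _, h3, h4⟩ := exists_dec G n ⊤ (fun _ _ _ _ => trivial) (by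
    rw [finrank_top, finrank_euclideanSpace, Fintype.card_fin])
  refine ⟨m, fun j => finrank ℝ (W j), ?_, h3, fun j => crd (W j), ?_, ?_⟩
  · intro j
    refine ⟨?_, hD _ (h1 j)⟩
    rw [Nat.one_le_iff_ne_zero, Ne, Submodule.finrank_eq_zero]
    exact (h1 j).2.1
  · intro x
    rw [← h4 x trivial]
    exact Finset.sum_congr rfl fun j _ => crd_dt (W j) x
  · intro g hg x j
    rw [crd_dt, crd_dt, proj_comm (h1 j).1 g hg, LinearIsometryEquiv.norm_map]

end Pool.Agent.H695.BL
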